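import Pool.Agent.Helper74.CA.All

set_option autoImplicit false

/-- Let `a` be an automorphism of the finite group `G` whose order is prime to the order of `G`, such
that every fixed element of `a` and every element `x⁻¹ a(x)` has order dividing `m`. If `p` is `2` or
`3` and `p ^ 2` does not divide `m` then every `p`-element `g` of `G` satisfies `g ^ (p ^ p) = 1`. In
particular, if `m` divides `6` then the exponent of `G` divides `108`. -/
theorem Pool.Agent.Results.MP_cb0591_al.DividesSix.result :
    ∀ (G : Type) [Group G] [Finite G] (a : MulAut G) (m : ℕ), 0 < m →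
      (orderOf a).Coprime (Nat.card G) →
      (∀ x : G, a x = x → x ^ m = 1) → (∀ x : G, (x⁻¹ * a x) ^ m = 1) →
      (∀ p : ℕ, p.Prime → p ≤ 3 → ¬ p ^ 2 ∣ m →
        ∀ (g : G) (j : ℕ), g ^ (p ^ j) = 1 → g ^ (p ^ p) = 1) ∧
      (m ∣ 6 → Monoid.exponent G ∣ 108) := by
  intro G _ _ a m hm hcop h1 h2
  obtain ⟨h3, h4, h5⟩ := Pool.Agent.Helper74.CA.t_FIN G a m hm hcop h1 h2
  refine ⟨fun p hp hp3 hpm g j hg => ?_, h3⟩
  have hp2 := hp.two_le
  have hcase : p = 2 ∨ p = 3 := by omega
  rcases hcase with rfl | rfl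
  · exact h4 (by simpa using hpm) g j hg
  · exact h5 (by simpa using hpm) g j hg
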